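import Pool.Agent.R495.MP.Asm
import Pool.Agent.R861.MP_PAD
import Pool.Agent.R97.MP_LINE
import Pool.Agent.R626.MP_FAMILY
import Pool.Agent.R262.MP_BRIDGE
import Pool.Agent.R806.MP_FINAL

open R495.MP

namespace Pool.Agent.Results.MP_849d81_co.TwoFifteenths

/-- `E n` is the largest size of a minimal percolating set of the `n × n` grid under 2-neighbour
bootstrap percolation. Lower bound `E n ≥ (2/15) n² - 50 n^(3/2)`; hence the limit of `E n / n²`
is at least `2/15`, and the conjectured value `4/33` is not attained. -/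
theorem result :
    (∀ n : ℕ, (2 / 15 : ℝ) * (n : ℝ) ^ 2 - 50 * (n : ℝ) * Real.sqrt n ≤ (E n : ℝ)) ∧
    ∀ c : ℝ, Filter.Tendsto (fun n : ℕ => (E n : ℝ) / (n : ℝ) ^ 2) Filter.atTop (nhds c) →
      2 / 15 ≤ c ∧ 4 / 33 < c :=
  t_Final t_Bridge Pool.Agent.R861.MPPAD.t_Pad
    (t_Family Pool.Agent.R97.MPLine.t_Line t_Base t_Step Pool.Agent.R861.MPPAD.t_FG)

end Pool.Agent.Results.MP_849d81_co.TwoFifteenths
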